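import Mathlib

/-!
# In a compactible relation the complement of an interval is a finite disjoint union of intervals

For a relation `A` of finite arity `n` on a set `E`, finite or infinite, let the intervals (mod `A`) be the sets `D` such that
for every local automorphism `f` of the restriction of `A` to `D` the map `f ∪ id` on `dom f ∪ (E \ D)` is a local
automorphism of `A`. If the complement of every interval is a union of finitely many intervals then the complement of every
interval is a union of finitely many pairwise disjoint intervals.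

The proof is by induction on the number of isomorphism types of restrictions of `A` to sets with at most `n` elements which
occur in a set. The main point: if `I` and `J` are intervals and every type which occurs in `I` occurs in `I \ J`, then
`J \ I` is an interval.
-/

set_option autoImplicit false

namespace Pool.Agent.Results.MP_a8ef43_co.DisjointIntervals

/-- The restriction of `f` to `X` is a local automorphism of the `n`-ary relation `A` on `E` (from `X` onto its image). -/
def LocalAut {E : Type*} {n : ℕ} (A : Set (Fin n → E)) (X : Set E) (f : E → E) : Prop :=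
  Set.InjOn f X ∧ ∀ t : Fin n → E, (∀ i, t i ∈ X) → (t ∈ A ↔ (fun i => f (t i)) ∈ A)

/-- `D` is an interval (mod `A`): if `X` is a subset of `D` and `f` maps `X` into `D`, is the identity outside of `D` and is a
local automorphism on `X`, then `f` is a local automorphism on `X ∪ (E \ D)`. -/
def IsInterval {E : Type*} {n : ℕ} (A : Set (Fin n → E)) (D : Set E) : Prop :=
  ∀ (X : Set E) (f : E → E), X ⊆ D → (∀ x ∈ X, f x ∈ D) → (∀ x, x ∉ D → f x = x) → LocalAut A X f →
    LocalAut A (X ∪ Dᶜ) f

/-- `A` is compactible: the complement of every interval is a union of finitely many intervals. -/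
def Compactible {E : Type*} {n : ℕ} (A : Set (Fin n → E)) : Prop :=
  ∀ D, IsInterval A D → ∃ S : Set (Set E), S.Finite ∧ (∀ I ∈ S, IsInterval A I) ∧ ⋃₀ S = Dᶜ

section proofs

variable {E : Type*} {n : ℕ} {A : Set (Fin n → E)}

theorem LocalAut.mono {X Y : Set E} {f : E → E} (h : LocalAut A Y f) (hXY : X ⊆ Y) : LocalAut A X f :=
  ⟨h.1.mono hXY, fun t ht => h.2 t fun i => hXY (ht i)⟩

/-- the intersection of two intervals is an interval -/
theorem IsInterval.inter {I J : Set E} (hI : IsInterval A I) (hJ : IsInterval A J) : IsInterval A (I ∩ J) := by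
  classical
  intro X f hX hfX hfid hf
  -- the map is a local automorphism on `X ∪ Iᶜ`
  have h1 : LocalAut A (X ∪ Iᶜ) f :=
    hI X f (fun x hx => (hX hx).1) (fun x hx => (hfX x hx).1) (fun x hx => hfid x fun hh => hx hh.1) hf
  -- and then on `X ∪ (J \ I) ∪ Jᶜ`
  have h2 : LocalAut A ((X ∪ (J \ I)) ∪ Jᶜ) f := by
    refine hJ (X ∪ (J \ I)) f ?_ ?_ (fun x hx => hfid x fun hh => hx hh.2) (h1.mono ?_)
    · rintro x (hx | hx)
      · exact (hX hx).2
      · exact hx.1
    · rintro x (hx | hx)
      · exact (hfX x hx).2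
      · rw [hfid x fun hh => hx.2 hh.1]
        exact hx.1
    · rintro x (hx | hx)
      · exact Or.inl hx
      · exact Or.inr hx.2
  refine h2.mono ?_
  rintro x (hx | hx)
  · exact Or.inl (Or.inl hx)
  · by_cases hJx : x ∈ J
    · exact Or.inl (Or.inr ⟨hJx, fun hI' => hx ⟨hI', hJx⟩⟩)
    · exact Or.inr hJx

/-- the type of a tuple -/
def typ (A : Set (Fin n → E)) (s : Fin n → E) : Set (Fin n → Fin n) × Set (Fin n × Fin n) :=
  ({τ | (fun i => s (τ i)) ∈ A}, {p | s p.1 = s p.2})

/-- the types which occur in `X` -/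
def types (A : Set (Fin n → E)) (X : Set E) : Set (Set (Fin n → Fin n) × Set (Fin n × Fin n)) :=
  {p | ∃ s : Fin n → E, (∀ i, s i ∈ X) ∧ typ A s = p}

theorem types_mono {X Y : Set E} (h : X ⊆ Y) : types A X ⊆ types A Y := by
  rintro p ⟨s, hs, rfl⟩
  exact ⟨s, fun i => h (hs i), rfl⟩

/-- **Main point.** If the types which occur in the interval `I` occur in `I \ J` then `J \ I` is an interval. -/
theorem key {I J : Set E} (hI : IsInterval A I) (hJ : IsInterval A J) (hC : types A I ⊆ types A (I \ J)) :
    IsInterval A (J \ I) := by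
  classical
  intro X f hX hfX hfid hf
  have hJX : LocalAut A (X ∪ Jᶜ) f :=
    hJ X f (fun x hx => (hX hx).1) (fun x hx => (hfX x hx).1) (fun x hx => hfid x fun hh => hx hh.1) hf
  refine ⟨?_, fun t ht => ?_⟩
  · rintro x (hx | hx) y (hy | hy) hxy
    · exact hf.1 hx hy hxy
    · rw [hfid y hy] at hxy
      exact absurd (hxy ▸ hfX x hx) hy
    · rw [hfid x hx] at hxy
      exact absurd (hxy ▸ hfX y hy) hx
    · rwa [hfid x hx, hfid y hy] at hxy
  by_cases hex : ∃ i0, t i0 ∈ I
  · obtain ⟨i0, hi0⟩ := hex
    let s : Fin n → E := fun i => if t i ∈ I then t i else t i0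
    have hsI : ∀ i, s i ∈ I := by
      intro i
      by_cases h : t i ∈ I
      · simp only [s, if_pos h]; exact h
      · simp only [s, if_neg h]; exact hi0
    obtain ⟨s', hs', hty⟩ := hC ⟨s, hsI, rfl⟩
    have hty1 : ∀ τ : Fin n → Fin n, ((fun i => s' (τ i)) ∈ A ↔ (fun i => s (τ i)) ∈ A) := by
      intro τ
      have := congrArg (fun p => τ ∈ p.1) hty
      exact Iff.of_eq this
    have hty2 : ∀ i j, (s' i = s' j ↔ s i = s j) := by
      intro i j
      have := congrArg (fun p => (i, j) ∈ p.2) hty
      exact Iff.of_eq this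
    let g : E → E := fun x => if h : ∃ i, s i = x then s' (Classical.choose h) else x
    have hgs : ∀ i, g (s i) = s' i := by
      intro i
      have hex : ∃ j, s j = s i := ⟨i, rfl⟩
      have h1 : g (s i) = s' (Classical.choose hex) := dif_pos hex
      rw [h1]
      exact (hty2 _ _).2 (Classical.choose_spec hex)
    have hgI : ∀ x, x ∉ I → g x = x := by
      intro x hx
      refine dif_neg ?_
      rintro ⟨i, rfl⟩
      exact hx (hsI i)
    have hgloc : LocalAut A (Set.range s) g := by
      refine ⟨?_, fun u hu => ?_⟩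
      · rintro _ ⟨i, rfl⟩ _ ⟨j, rfl⟩ hij
        rw [hgs, hgs] at hij
        exact (hty2 i j).1 hij
      · choose τ hτ using hu
        have e1 : u = fun i => s (τ i) := funext fun i => (hτ i).symm
        have e2 : (fun i => g (u i)) = fun i => s' (τ i) := by
          funext i
          rw [← hτ i, hgs]
        rw [e2, e1]
        exact (hty1 τ).symm
    have hgL : LocalAut A (Set.range s ∪ Iᶜ) g := by
      refine hI (Set.range s) g ?_ ?_ hgI hgloc
      · rintro _ ⟨i, rfl⟩
        exact hsI i
      · rintro _ ⟨i, rfl⟩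
        rw [hgs]
        exact (hs' i).1
    -- entries in `I`
    have hin : ∀ i, t i ∈ I → t i = s i ∧ f (t i) = t i ∧ g (t i) = s' i ∧ f (g (t i)) = g (t i) := by
      intro i hi
      have e1 : s i = t i := if_pos hi
      have e2 : f (t i) = t i := hfid _ fun hh => hh.2 hi
      have e3 : g (t i) = s' i := by rw [← e1, hgs]
      refine ⟨e1.symm, e2, e3, ?_⟩
      rw [e3]
      exact hfid _ fun hh => hh.2 (hs' i).1
    -- entries outside of `I`
    have hout : ∀ i, t i ∉ I → f (t i) ∉ I := by
      intro i hi
      rcases ht i with h | h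
      · exact (hfX _ h).2
      · rwa [hfid _ h]
    have e1 : t ∈ A ↔ (fun i => g (t i)) ∈ A := by
      refine hgL.2 t fun i => ?_
      by_cases hi : t i ∈ I
      · exact Or.inl ⟨i, (hin i hi).1.symm⟩
      · exact Or.inr hi
    have e2 : (fun i => f (t i)) ∈ A ↔ (fun i => g (f (t i))) ∈ A := by
      refine hgL.2 (fun i => f (t i)) fun i => ?_
      by_cases hi : t i ∈ I
      · refine Or.inl ⟨i, ?_⟩
        show s i = f (t i)
        rw [(hin i hi).2.1]
        exact (hin i hi).1.symm
      · exact Or.inr (hout i hi)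
    have e3 : (fun i => g (t i)) ∈ A ↔ (fun i => f (g (t i))) ∈ A := by
      refine hJX.2 (fun i => g (t i)) fun i => ?_
      by_cases hi : t i ∈ I
      · show g (t i) ∈ _
        rw [(hin i hi).2.2.1]
        exact Or.inr (hs' i).2
      · show g (t i) ∈ _
        rw [hgI _ hi]
        rcases ht i with h | h
        · exact Or.inl h
        · exact Or.inr fun hJ' => h ⟨hJ', hi⟩
    have e4 : (fun i => f (g (t i))) = fun i => g (f (t i)) := by
      funext i
      by_cases hi : t i ∈ I
      · rw [(hin i hi).2.2.2, (hin i hi).2.1]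
      · rw [hgI _ hi, hgI _ (hout i hi)]
    rw [e1, e3, e4, ← e2]
  · push Not at hex
    refine hJX.2 t fun i => ?_
    rcases ht i with h | h
    · exact Or.inl h
    · exact Or.inr fun hJ' => h ⟨hJ', hex i⟩

/-- finite unions of intervals -/
def FU (A : Set (Fin n → E)) (X : Set E) : Prop :=
  ∃ S : Set (Set E), S.Finite ∧ (∀ I ∈ S, IsInterval A I) ∧ ⋃₀ S = X

/-- finite disjoint unions of intervals -/
def DU (A : Set (Fin n → E)) (X : Set E) : Prop :=
  ∃ S : Set (Set E), S.Finite ∧ (∀ I ∈ S, IsInterval A I) ∧ S.PairwiseDisjoint id ∧ ⋃₀ S = X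

theorem FU.inter {X I : Set E} (h : FU A X) (hI : IsInterval A I) : FU A (I ∩ X) := by
  obtain ⟨S, h1, h2, h3⟩ := h
  refine ⟨(fun J => I ∩ J) '' S, h1.image _, ?_, ?_⟩
  · rintro _ ⟨J, hJ, rfl⟩
    exact hI.inter (h2 J hJ)
  · rw [← h3, Set.sUnion_image, Set.sUnion_eq_biUnion, Set.inter_iUnion₂]

theorem DU.union {X Y : Set E} (hX : DU A X) (hY : DU A Y) (hXY : Disjoint X Y) : DU A (X ∪ Y) := by
  obtain ⟨S, h1, h2, h3, h4⟩ := hX
  obtain ⟨T, k1, k2, k3, k4⟩ := hY
  refine ⟨S ∪ T, h1.union k1, ?_, ?_, ?_⟩
  · rintro I (hI | hI)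
    · exact h2 I hI
    · exact k2 I hI
  · refine (Set.pairwiseDisjoint_union).2 ⟨h3, k3, ?_⟩
    intro I hI J hJ _
    refine Set.disjoint_of_subset ?_ ?_ hXY
    · rw [← h4]; exact Set.subset_sUnion_of_mem hI
    · rw [← k4]; exact Set.subset_sUnion_of_mem hJ
  · rw [Set.sUnion_union, h4, k4]

theorem DU.single {I : Set E} (hI : IsInterval A I) : DU A I :=
  ⟨{I}, Set.finite_singleton I, by simpa using hI, Set.pairwiseDisjoint_singleton _ _, Set.sUnion_singleton I⟩

theorem DU.empty : DU A ∅ :=
  ⟨∅, Set.finite_empty, by simp, Set.pairwiseDisjoint_empty, Set.sUnion_empty⟩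

theorem main (hA : Compactible A) : ∀ N : ℕ, ∀ X : Set E, (types A X).ncard = N → FU A X → DU A X := by
  intro N
  induction N using Nat.strong_induction_on with
  | _ N ih =>
    intro X hX hFU
    -- adding an interval to a disjoint union
    have step : ∀ T : Set (Set E), T.Finite → (∀ Y ∈ T, IsInterval A Y) → (∀ Y ∈ T, Y ⊆ X) →
        T.PairwiseDisjoint id → ∀ I, IsInterval A I → I ⊆ X → DU A (I ∪ ⋃₀ T) := by
      intro T hT
      induction T, hT using Set.Finite.induction_on with
      | empty =>
        intro _ _ _ I hI _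
        rw [Set.sUnion_empty, Set.union_empty]
        exact DU.single hI
      | @insert Y T hYT hT ih2 =>
        intro h1 h2 h3 I hI hIX
        have hY : IsInterval A Y := h1 Y (Set.mem_insert _ _)
        have hYX : Y ⊆ X := h2 Y (Set.mem_insert _ _)
        have h1' : ∀ Z ∈ T, IsInterval A Z := fun Z hZ => h1 Z (Set.mem_insert_of_mem _ hZ)
        have h2' : ∀ Z ∈ T, Z ⊆ X := fun Z hZ => h2 Z (Set.mem_insert_of_mem _ hZ)
        have h3' : T.PairwiseDisjoint id := h3.subset (Set.subset_insert _ _)
        have hdis : Disjoint Y (⋃₀ T) := by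
          rw [Set.disjoint_sUnion_right]
          intro Z hZ
          exact h3 (Set.mem_insert _ _) (Set.mem_insert_of_mem _ hZ) (fun he => hYT (he ▸ hZ))
        by_cases hC : types A Y ⊆ types A (Y \ I)
        · have hV : IsInterval A (I \ Y) := key hY hI hC
          have h4 := ih2 h1' h2' h3' (I \ Y) hV (fun x hx => hIX hx.1)
          have h5 : I ∪ ⋃₀ insert Y T = Y ∪ ((I \ Y) ∪ ⋃₀ T) := by
            rw [Set.sUnion_insert, ← Set.union_assoc, ← Set.union_assoc, Set.union_sdiff_self, Set.union_comm I Y]
          rw [h5]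
          refine (DU.single hY).union h4 ?_
          rw [Set.disjoint_union_right]
          exact ⟨Set.disjoint_sdiff_right, hdis⟩
        · have hlt : (types A (Y \ I)).ncard < N := by
            have e1 : types A (Y \ I) ⊂ types A Y := ⟨types_mono Set.sdiff_subset, hC⟩
            calc (types A (Y \ I)).ncard < (types A Y).ncard := Set.ncard_lt_ncard e1 (Set.toFinite _)
              _ ≤ (types A X).ncard := Set.ncard_le_ncard (types_mono hYX) (Set.toFinite _)
              _ = N := hX
          have h6 : FU A (Y \ I) := by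
            rw [Set.sdiff_eq]
            exact FU.inter (hA I hI) hY
          have h7 : DU A (Y \ I) := ih _ hlt _ rfl h6
          have h4 := ih2 h1' h2' h3' I hI hIX
          have h5 : I ∪ ⋃₀ insert Y T = (I ∪ ⋃₀ T) ∪ (Y \ I) := by
            rw [Set.sUnion_insert]
            ext x
            simp only [Set.mem_union, Set.mem_sdiff]
            tauto
          rw [h5]
          refine h4.union h7 ?_
          rw [Set.disjoint_union_left]
          exact ⟨Set.disjoint_sdiff_right, (hdis.mono_left Set.sdiff_subset).symm⟩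
    -- unions
    have all : ∀ S : Set (Set E), S.Finite → (∀ I ∈ S, IsInterval A I) → (∀ I ∈ S, I ⊆ X) → DU A (⋃₀ S) := by
      intro S hS
      induction S, hS using Set.Finite.induction_on with
      | empty =>
        intro _ _
        rw [Set.sUnion_empty]
        exact DU.empty
      | @insert I S _ _ ih2 =>
        intro h1 h2
        obtain ⟨T, k1, k2, k3, k4⟩ := ih2 (fun Z hZ => h1 Z (Set.mem_insert_of_mem _ hZ))
          (fun Z hZ => h2 Z (Set.mem_insert_of_mem _ hZ))
        rw [Set.sUnion_insert, ← k4]
        refine step T k1 k2 ?_ k3 I (h1 I (Set.mem_insert _ _)) (h2 I (Set.mem_insert _ _))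
        intro Y hY x hx
        have : x ∈ ⋃₀ S := by rw [← k4]; exact ⟨Y, hY, hx⟩
        obtain ⟨Z, hZ, hxZ⟩ := this
        exact h2 Z (Set.mem_insert_of_mem _ hZ) hxZ
    obtain ⟨S, h1, h2, h3⟩ := hFU
    rw [← h3]
    exact all S h1 h2 fun I hI => by rw [← h3]; exact Set.subset_sUnion_of_mem hI

end proofs

/-- **The complement of an interval of a compactible relation is a finite disjoint union of intervals.** -/
theorem result {E : Type*} {n : ℕ} (A : Set (Fin n → E)) (hA : Compactible A) (D : Set E) (hD : IsInterval A D) :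
    ∃ S : Set (Set E), S.Finite ∧ (∀ I ∈ S, IsInterval A I) ∧ S.PairwiseDisjoint id ∧ ⋃₀ S = Dᶜ :=
  main hA _ _ rfl (hA D hD)

end Pool.Agent.Results.MP_a8ef43_co.DisjointIntervals
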